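import Pool.Agent.N799.ZD.Main

/-!
# MP_4467b5_nt: the density hypothesis and the zeros of the derivatives of zeta

For every non-zero polynomial `p` the zeros of `p(d/ds) ζ` to the left of the critical line obey the same
density bounds as the zeros of zeta to the left of the critical line: unconditionally, the numbers of the zeros
in dyadic windows agree up to a factor `O(log T)` and an arbitrarily small shift of the half-plane and a bounded
change of the window.  In particular the density hypothesis is a statement on the zeros of `ζ'`, or of any one of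
the functions `p(d/ds) ζ`.
-/

set_option autoImplicit false

namespace Pool.Agent.Results.MP_4467b5_nt.DerivativeZeros

/-- `N(σ, T)`: the zeros of zeta with real part at least `σ` and ordinate in `(0, T]`, with multiplicity -/
noncomputable def N (σ T : ℝ) : ℕ :=
  ∑ᶠ s ∈ {s : ℂ | riemannZeta s = 0 ∧ σ ≤ s.re ∧ 0 < s.im ∧ s.im ≤ T}, analyticOrderNatAt riemannZeta s

/-- `N(σ, T) ≤ C T^(A (1 - σ) + ε)`, uniformly in `1/2 ≤ σ ≤ 1`; the density hypothesis is the case `A = 2` -/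
def DensityBound (A : ℝ) : Prop :=
  ∀ ε : ℝ, 0 < ε → ∃ C T₀ : ℝ, 0 < C ∧ ∀ T : ℝ, T₀ ≤ T → ∀ σ : ℝ, 1 / 2 ≤ σ → σ ≤ 1 →
    (N σ T : ℝ) ≤ C * T ^ (A * (1 - σ) + ε)

/-- the linear combination `∑ a_j ζ^(j)(s)` of zeta and its derivatives, `p = ∑ a_j X^j` -/
noncomputable def D (p : Polynomial ℂ) (s : ℂ) : ℂ := p.sum fun j a => a * iteratedDeriv j riemannZeta s

/-- `f` has at most `B` zeros in `U`, counted with multiplicity -/
def FewZeros (f : ℂ → ℂ) (U : Set ℂ) (B : ℝ) : Prop :=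
  ∀ S : Finset ℂ, (∀ z ∈ S, z ∈ U ∧ f z = 0) → ∑ z ∈ S, (analyticOrderNatAt f z : ℝ) ≤ B

/-- the number of zeros of `f` with real part at most `x` and ordinate in `[T, 2T]` is `O(T^(r + ε))` for all
`ε > 0` -/
def LeftBound (f : ℂ → ℂ) (x r : ℝ) : Prop :=
  ∀ ε : ℝ, 0 < ε → ∃ C T₀ : ℝ, ∀ T : ℝ, T₀ ≤ T →
    FewZeros f {s | s.re ≤ x ∧ T ≤ s.im ∧ s.im ≤ 2 * T} (C * T ^ (r + ε))

/-- Let `p` be a non-zero polynomial.
(1) For `A ≥ 2` the density bound with exponent `A (1 - σ) + ε` is equivalent to the bound with exponent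
`A x + ε` for the number of the zeros of `D p` in the half-plane `Re s ≤ x`, for every `0 < x < 1 / A`.
(2) The same for one abscissa `σ₀ ≥ 1/2`.
(3) Unconditionally, the numbers of zeros of zeta and of `D p` in half-planes to the left of the critical line,
in dyadic windows, agree up to a factor `O(log T)`, a shift by an arbitrarily small `δ` and a change of the
window. -/
theorem result (p : Polynomial ℂ) (hp : p ≠ 0) :
    (∀ A : ℝ, 2 ≤ A → (DensityBound A ↔ ∀ x : ℝ, 0 < x → A * x < 1 → LeftBound (D p) x (A * x))) ∧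
    (∀ σ₀ r : ℝ, 1 / 2 ≤ σ₀ → 0 ≤ r →
      ((∀ σ : ℝ, σ₀ < σ → ∀ ε : ℝ, 0 < ε → ∃ C : ℝ, ∀ T : ℝ, 1 ≤ T → (N σ T : ℝ) ≤ C * T ^ (r + ε)) ↔
        ∀ x : ℝ, x < 1 - σ₀ → LeftBound (D p) x r)) ∧
    (∀ δ : ℝ, 0 < δ → ∃ C T₀ : ℝ, ∀ T x M : ℝ, T₀ ≤ T → x ≤ 1 / 2 - δ →
      (FewZeros riemannZeta {s | s.re ≤ x + δ ∧ T / 2 ≤ s.im ∧ s.im ≤ 4 * T} M →
        FewZeros (D p) {s | s.re ≤ x ∧ T ≤ s.im ∧ s.im ≤ 2 * T} (C * Real.log T * M)) ∧
      (FewZeros (D p) {s | s.re ≤ x + δ ∧ T / 2 ≤ s.im ∧ s.im ≤ 4 * T} M →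
        FewZeros riemannZeta {s | s.re ≤ x ∧ T ≤ s.im ∧ s.im ≤ 2 * T} (C * Real.log T * M))) := by
  refine ⟨fun A hA => Pool.Agent.N799.ZD.density_D p hp hA,
    fun σ₀ r hσ hr => Pool.Agent.N799.ZD.single_D p hp hσ hr, fun δ hδ => ?_⟩
  obtain ⟨C₁, T₁, hC₁, hT₁, h1⟩ := Pool.Agent.N799.ZD.zeta_to_D p hp δ hδ
  obtain ⟨C₂, T₂, hC₂, hT₂, h2⟩ := Pool.Agent.N799.ZD.D_to_zeta p hp δ hδ
  refine ⟨max C₁ C₂, max T₁ T₂, fun T x M hT hx => ⟨fun h => ?_, fun h => ?_⟩⟩
  · have hM : 0 ≤ M := by simpa using h ∅ (by simp)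
    have hT' : T₁ ≤ T := (le_max_left _ _).trans hT
    refine Pool.Agent.N799.LH.ZL.mono (h1 T x M hT' hx h) Set.Subset.rfl ?_
    have hl : 0 ≤ Real.log T := Real.log_nonneg (by linarith)
    gcongr
    exact le_max_left _ _
  · have hM : 0 ≤ M := by simpa using h ∅ (by simp)
    have hT' : T₂ ≤ T := (le_max_right _ _).trans hT
    refine Pool.Agent.N799.LH.ZL.mono (h2 T x M hT' hx h) Set.Subset.rfl ?_
    have hl : 0 ≤ Real.log T := Real.log_nonneg (by linarith)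
    gcongr
    exact le_max_right _ _

end Pool.Agent.Results.MP_4467b5_nt.DerivativeZeros
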