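import Pool.Agent.N802.DH.Fin

/-!
# The density hypothesis in long weights

Unconditionally, for every `ε > 0` there is `C` such that for all large `T`, all `1/2 ≤ σ ≤ 1`, all
`1 ≤ N ≤ T` and all complex coefficients `r(1), ..., r(N)`, with `R(t) = ∑ r(n) n ^ (- i t)`:

`∑ |R(t)|² ≤ C T ^ ε (N T ^ (2 (1 - σ)) + T (N / T) ^ ((2 σ - 1) / (3 - 2 σ))) ∑ |r(n)|²`,

where the first sum is over the zeros `β + i t` of zeta with `β ≥ σ` and `T < t ≤ 2 T`, with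
multiplicity. For `N ≥ T ^ (σ - 1 / 2)` the first term is the larger one: this is the bound that
follows from the density hypothesis and `|R|² ≤ N ∑ |r(n)|²`.
-/

open Complex

namespace Pool.Agent.Results.MP_4467b5_nt.LongWeights

/-- the zeros of zeta with real part at least `σ` and ordinate in `(T, 2 T]` -/
def zeros (σ T : ℝ) : Set ℂ := {s : ℂ | riemannZeta s = 0 ∧ σ ≤ s.re ∧ T < s.im ∧ s.im ≤ 2 * T}

/-- the multiplicity of a zero of zeta -/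
noncomputable def mult (s : ℂ) : ℕ := analyticOrderNatAt riemannZeta s

/-- the Dirichlet polynomial `∑ r(n) n ^ (- i t)`, `1 ≤ n ≤ N` -/
noncomputable def R (N : ℕ) (r : ℕ → ℂ) (t : ℝ) : ℂ :=
  ∑ n ∈ Finset.Icc 1 N, r n * (n : ℂ) ^ (-(I * t))

open Classical in
lemma zeros_eq {σ T : ℝ} (hT : 1 ≤ T) (hσ : 1 / 2 ≤ σ) : zeros σ T =
    ((H370.Zf riemannZeta T (2 * T)).filter (fun s => σ ≤ s.re) : Finset ℂ) := by
  ext s
  rw [Finset.mem_coe, Finset.mem_filter, H370.mem_Zf H370.good_zeta hT]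
  unfold zeros
  simp only [Set.mem_ofPred_eq]
  constructor
  · rintro ⟨a, b, c, d⟩
    refine ⟨⟨by linarith, ?_, c, d, a⟩, b⟩
    by_contra hcon
    push Not at hcon
    exact riemannZeta_ne_zero_of_one_le_re hcon a
  · rintro ⟨⟨_, _, c, d, a⟩, b⟩
    exact ⟨a, b, c, d⟩

/-- the sets of zeros are finite -/
theorem zeros_finite (σ T : ℝ) (hT : 1 ≤ T) (hσ : 1 / 2 ≤ σ) : (zeros σ T).Finite := by
  classical
  rw [zeros_eq hT hσ]
  exact Finset.finite_toSet _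

theorem result : ∀ ε : ℝ, 0 < ε → ∃ C T₀ : ℝ, 0 < C ∧ ∀ T : ℝ, T₀ ≤ T →
    ∀ σ : ℝ, 1 / 2 ≤ σ → σ ≤ 1 → ∀ N : ℕ, 1 ≤ N → (N : ℝ) ≤ T → ∀ r : ℕ → ℂ,
    ∑ᶠ s ∈ zeros σ T, (mult s : ℝ) * ‖R N r s.im‖ ^ 2 ≤
      C * T ^ ε * ((N : ℝ) * T ^ (2 * (1 - σ)) + T * ((N : ℝ) / T) ^ ((2 * σ - 1) / (3 - 2 * σ))) *
        ∑ n ∈ Finset.Icc 1 N, ‖r n‖ ^ 2 := by
  classical
  intro ε hε
  obtain ⟨C, T0, hC, hT0, h⟩ := N802.DH.dh_zeta ε hε
  refine ⟨C, T0, hC, fun T hT σ hσ hσ1 N hN hNT r => ?_⟩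
  have hT1 : 1 ≤ T := by linarith
  have h1 := h T hT σ hσ hσ1 N hN hNT (fun n => if n ∈ Finset.Icc 1 N then r n else 0)
    (fun n hn => if_neg hn)
  have e1 : ∑ n ∈ Finset.Icc 1 N, ‖(if n ∈ Finset.Icc 1 N then r n else 0 : ℂ)‖ ^ 2 =
      ∑ n ∈ Finset.Icc 1 N, ‖r n‖ ^ 2 :=
    Finset.sum_congr rfl fun n hn => by rw [if_pos hn]
  rw [e1] at h1
  unfold N802.DH.GG at h1
  rw [show 2 - 2 * σ = 2 * (1 - σ) by ring] at h1
  refine le_trans (le_of_eq ?_) h1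
  rw [zeros_eq hT1 hσ, finsum_mem_coe_finset]
  refine Finset.sum_congr rfl fun s hs => ?_
  have e2 : R N r s.im = ∑ n ∈ Finset.Icc 1 N, (if n ∈ Finset.Icc 1 N then r n else 0) *
      (n : ℂ) ^ (-(I * s.im)) := by
    unfold R
    exact Finset.sum_congr rfl fun n hn => by rw [if_pos hn]
  rw [e2]
  rfl

end Pool.Agent.Results.MP_4467b5_nt.LongWeights
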