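import Pool.Agent.N798.DH2

/-!
# MP_4467b5_nt: the density hypothesis and the zeros near the heights `α n^c`

The density hypothesis holds if and only if for almost every `α > 0` and every `c > 1` the zeros of zeta with
ordinates within a bounded distance of `α n^c` have real parts at most `1/2 + 1/(2c) + o(1)` as `n → ∞`.  There
is a zero-one law behind this: for almost all `(α, c)` in a strip `a < c < b` the condition fails if the density
hypothesis fails at a suitable `σ`.  More generally the exponent `2 (1 - σ)` may be replaced by `A (1 - σ)`,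
`A ≥ 2`, and there is a version for every single `σ`.

The proof of the harder direction: for a measurable set `E` of heights with more than `T^r` in measure up to some
large `T`, the events `α n^c ∈ E` are quasi-independent for `(α, c)` uniformly distributed in any square of side
`1 / log T`, so a positive proportion of every such square is covered when `c < 1 / (1 - r)`; the Lebesgue
density theorem in the plane finishes the proof.  For a fixed `c` this may fail for sets with a multiplicative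
structure, hence the second parameter.
-/

set_option autoImplicit false

namespace Pool.Agent.Results.MP_4467b5_nt.SparseHeights

open MeasureTheory

/-- `N(σ, T)`: the zeros of zeta with real part at least `σ` and ordinate in `(0, T]`, with multiplicity -/
noncomputable def N (σ T : ℝ) : ℕ :=
  ∑ᶠ s ∈ {s : ℂ | riemannZeta s = 0 ∧ σ ≤ s.re ∧ 0 < s.im ∧ s.im ≤ T}, analyticOrderNatAt riemannZeta s

/-- `N(σ, T) ≤ C T^(A (1 - σ) + ε)`, uniformly in `1/2 ≤ σ ≤ 1`; the density hypothesis is the case `A = 2` -/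
def DensityBound (A : ℝ) : Prop :=
  ∀ ε : ℝ, 0 < ε → ∃ C T₀ : ℝ, 0 < C ∧ ∀ T : ℝ, T₀ ≤ T → ∀ σ : ℝ, 1 / 2 ≤ σ → σ ≤ 1 →
    (N σ T : ℝ) ≤ C * T ^ (A * (1 - σ) + ε)

/-- the zeros with ordinates within `H` of `α n^c` have real parts at most `1 - (1 - 1/c)/A + o(1)`, `n → ∞`;
for `A = 2` this is `1/2 + 1/(2c) + o(1)` -/
def NearBound (A H α c : ℝ) : Prop :=
  ∀ ε : ℝ, 0 < ε → ∃ m : ℕ, ∀ n : ℕ, m ≤ n → ∀ ρ : ℂ, riemannZeta ρ = 0 →
    |ρ.im - α * (n : ℝ) ^ c| ≤ H → ρ.re ≤ 1 - (1 - 1 / c) / A + ε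

/-- for all large `n` there is no zero with real part at least `σ` and ordinate within `H` of `α n^c` -/
def ZeroFree (σ H α c : ℝ) : Prop :=
  ∃ m : ℕ, ∀ n : ℕ, m ≤ n → ∀ ρ : ℂ, riemannZeta ρ = 0 → σ ≤ ρ.re → H < |ρ.im - α * (n : ℝ) ^ c|

/-- (1) The density bound with exponent `A (1 - σ) + ε` is equivalent to `NearBound` for every `c > 1` and almost
every `α > 0`, for almost every `(α, c)`, and for a set of positive measure of `(α, c)` in every strip `a < c < b`.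
(2) For a single `σ` the bound `N(σ, T) = O(T^(r + ε))` for all `ε > 0` is equivalent to `ZeroFree` for every
`c > 1 / (1 - r)` and almost every `α > 0`, and so on. -/
theorem result :
    (∀ A H : ℝ, 2 ≤ A → 0 < H →
      (DensityBound A ↔ ∀ c : ℝ, 1 < c → ∀ᵐ α : ℝ, 0 < α → NearBound A H α c) ∧
      (DensityBound A ↔ ∀ᵐ p : ℝ × ℝ, 0 < p.1 → 1 < p.2 → NearBound A H p.1 p.2) ∧
      (DensityBound A ↔ ∀ a b : ℝ, 1 < a → a < b →
        volume {p : ℝ × ℝ | 0 < p.1 ∧ a < p.2 ∧ p.2 < b ∧ NearBound A H p.1 p.2} ≠ 0)) ∧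
    (∀ σ r H : ℝ, 1 / 2 ≤ σ → 0 ≤ r → r < 1 → 0 < H →
      ((∀ ε : ℝ, 0 < ε → ∃ C : ℝ, ∀ T : ℝ, 1 ≤ T → (N σ T : ℝ) ≤ C * T ^ (r + ε)) ↔
        ∀ c : ℝ, 1 / (1 - r) < c → ∀ᵐ α : ℝ, 0 < α → ZeroFree σ H α c) ∧
      ((∀ ε : ℝ, 0 < ε → ∃ C : ℝ, ∀ T : ℝ, 1 ≤ T → (N σ T : ℝ) ≤ C * T ^ (r + ε)) ↔
        ∀ᵐ p : ℝ × ℝ, 0 < p.1 → 1 / (1 - r) < p.2 → ZeroFree σ H p.1 p.2) ∧
      ((∀ ε : ℝ, 0 < ε → ∃ C : ℝ, ∀ T : ℝ, 1 ≤ T → (N σ T : ℝ) ≤ C * T ^ (r + ε)) ↔
        ∀ a b : ℝ, 1 / (1 - r) < a → a < b →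
          volume {p : ℝ × ℝ | 0 < p.1 ∧ a < p.2 ∧ p.2 < b ∧ ZeroFree σ H p.1 p.2} ≠ 0)) := by
  refine ⟨fun A H hA hH => ?_, fun σ r H hσ hr hr1 hH => ?_⟩
  · have h := Pool.Agent.N798.DH.density hA hH
    exact ⟨h.out 0 1, h.out 0 2, h.out 0 3⟩
  · have h := Pool.Agent.N798.DH.single hσ hr hr1 hH
    exact ⟨h.out 0 1, h.out 0 2, h.out 0 3⟩

end Pool.Agent.Results.MP_4467b5_nt.SparseHeights
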