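import Pool.Agent.N593.DZ.Fin
import Pool.Agent.TH822.AA.Main
import Pool.Agent.Results.MP_4467b5_nt.IsolatedZeros

/-!
# The zeros of zeta near the denominators of the convergents of almost every number

We consider the zeros `β + iγ` of the Riemann zeta function with ordinates near `G(q)`, where `q` runs over the denominators of
good approximations: of the convergents of the continued fraction of a real number `ξ`, or of the simultaneous approximations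
of a vector `α` in `ℝ^k`.

(1) Unconditionally, for `G` with steps bounded below by a positive constant and `G(v) ≤ C v`, for example `G(v) = a v + b`: for
almost all `ξ` all zeros with `|γ - G(q)| ≤ log G(q)` have real parts at most `1/2 + o(1)`, that is, they approach the critical
line when `q` runs over the denominators of the convergents of `ξ`. The same holds for the `q` with
`|q α_i - p_i| ≤ b q^(-1/k)` for almost all `α` in `ℝ^k` and all `b`.

(2) Unconditionally, for `G` with steps bounded below by a positive constant and growth at most `v^d`, if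
`θ = d (2 (1 - σ) + ε) + κ < 1`: for almost all `ξ` and all but finitely many convergents EVERY zero with `β ≥ σ` and
`|γ - G(q)| ≤ q^κ` lies in a dense cluster: the disc `|s - (1 + iγ)| ≤ 1 - β + δ` contains more than `η log γ` zeros.

(3) If `N(σ, T) = O(T^(r + ε))` for all `ε > 0`, and `θ = d r + κ < 1`, then for almost all `ξ` and all but finitely many
convergents there are no zeros with `β ≥ σ` and `|γ - G(q)| ≤ q^κ`.

In (2) and (3) the exceptional `α` in `ℝ^k`, those with infinitely many exceptional `q` with `|q α_i - p_i| ≤ c q^(-τ)`, form a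
set of Hausdorff dimension at most `(k + θ) / (1 + τ)`.

Proof. The number of the exceptional zeros with ordinates up to `T` is `O(T^(2 (1 - σ) + ε))` in (2), by the starting theorem
`IsolatedZeros` of this problem, and in (1) the `t ≤ T` near a zero with real part at least `1/2 + τ` form a set of measure
`O(T^(1 - δ))`, by a density theorem of the starting library (`Pool.Agent.TH822.AA.bz_z`). So the `q` with an exceptional zero
near `G(q)` form a thin set, which is met by the denominators of the good approximations only finitely often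
(`Pool.Agent.N593.DZ`, `Pool.Agent.N220.CF` of helper220).
-/

set_option autoImplicit false

open Filter Topology MeasureTheory

namespace Pool.Agent.Results.MP_4467b5_nt.ZerosAtGoodApproximations

open Pool.Agent.N733.TG (Expanding expanding_pow)
open Pool.Agent.N220.CF (RarelyMet rarely_windows FinitelyMet Approx finitely_iff_all)
open Pool.Agent.N593.DZ (finitely_real finitely_lt large)
open Pool.Agent.Results.MP_4467b5_nt.IsolatedZeros (zeros count near zeros_finite)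

lemma order_pos {s : ℂ} (hs : s ≠ 1) (h : riemannZeta s = 0) : 1 ≤ analyticOrderNatAt riemannZeta s := by
  have hF : AnalyticOnNhd ℂ riemannZeta ({1}ᶜ : Set ℂ) := by
    intro z hz
    refine DifferentiableOn.analyticAt (s := {1}ᶜ) (fun w hw => (differentiableAt_riemannZeta hw).differentiableWithinAt) ?_
    exact isOpen_compl_singleton.mem_nhds hz
  have han : AnalyticAt ℂ riemannZeta s := hF s hs
  have hne : analyticOrderAt riemannZeta s ≠ ⊤ := by
    intro htop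
    have hU : IsPreconnected ({1}ᶜ : Set ℂ) := by
      refine (isConnected_compl_singleton_of_one_lt_rank ?_ 1).isPreconnected
      rw [Complex.rank_real_complex]
      norm_num
    have hz := hF.eqOn_zero_of_preconnected_of_eventuallyEq_zero hU (show s ∈ ({1}ᶜ : Set ℂ) from hs)
      (analyticOrderAt_eq_top.1 htop)
    exact riemannZeta_ne_zero_of_one_le_re (s := 2) (by simp) (hz (show (2 : ℂ) ∈ ({1}ᶜ : Set ℂ) by simp))
  have h0 : analyticOrderAt riemannZeta s ≠ 0 := han.analyticOrderAt_ne_zero.2 h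
  unfold analyticOrderNatAt
  rw [Nat.one_le_iff_ne_zero]
  intro hcon
  rw [ENat.toNat_eq_zero] at hcon
  exact hcon.elim h0 hne

lemma ncard_le {A : Set ℂ} (hA : A.Finite) (h : ∀ s ∈ A, riemannZeta s = 0 ∧ 0 < s.im) : A.ncard ≤ count A := by
  classical
  unfold count
  rw [finsum_mem_eq_finite_toFinset_sum _ hA, Set.ncard_eq_toFinset_card _ hA, Finset.card_eq_sum_ones]
  refine Finset.sum_le_sum fun s hs => ?_
  obtain ⟨h1, h2⟩ := h s (hA.mem_toFinset.1 hs)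
  refine order_pos (fun hcon => ?_) h1
  rw [hcon, Complex.one_im] at h2
  exact lt_irrefl _ h2

/-- from a bound for large `T` to a bound for all `X ≥ 1` -/
lemma count_all {S : Set ℂ} (hS : ∀ s ∈ S, riemannZeta s = 0 ∧ 0 < s.im ∧ 0 ≤ s.re) {s C T₀ : ℝ} (hs : 0 ≤ s)
    (h : ∀ X : ℝ, T₀ ≤ X → 1 ≤ X → (({t : ℂ | t ∈ S ∧ t.im ≤ X}.ncard : ℕ) : ℝ) ≤ C * X ^ s) :
    ∀ ε : ℝ, 0 < ε → ∃ C' : ℝ, ∀ X : ℝ, 1 ≤ X →
      {t : ℂ | t ∈ S ∧ t.im ≤ X}.Finite ∧ ({t : ℂ | t ∈ S ∧ t.im ≤ X}.ncard : ℝ) ≤ C' * X ^ (s + ε) := by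
  have hfin : ∀ X : ℝ, {t : ℂ | t ∈ S ∧ t.im ≤ X}.Finite := fun X => by
    refine (zeros_finite 0 X).subset ?_
    rintro t ⟨ht, hX⟩
    obtain ⟨h1, h2, h3⟩ := hS t ht
    exact ⟨h1, h3, h2, hX⟩
  intro ε hε
  refine ⟨|C| + ({t : ℂ | t ∈ S ∧ t.im ≤ T₀}.ncard : ℝ), fun X hX => ⟨hfin X, ?_⟩⟩
  have hXs : X ^ s ≤ X ^ (s + ε) := Real.rpow_le_rpow_of_exponent_le hX (by linarith)
  have hX1 : 1 ≤ X ^ (s + ε) := Real.one_le_rpow hX (by linarith)
  rcases le_total T₀ X with h1 | h1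
  · calc _ ≤ C * X ^ s := h X h1 hX
      _ ≤ |C| * X ^ (s + ε) := by
          calc C * X ^ s ≤ |C| * X ^ s := mul_le_mul_of_nonneg_right (le_abs_self C) (by positivity)
            _ ≤ |C| * X ^ (s + ε) := mul_le_mul_of_nonneg_left hXs (abs_nonneg C)
      _ ≤ _ := by
          apply mul_le_mul_of_nonneg_right _ (by positivity)
          have : (0 : ℝ) ≤ ({t : ℂ | t ∈ S ∧ t.im ≤ T₀}.ncard : ℝ) := Nat.cast_nonneg _
          linarith
  · have h2 : ({t : ℂ | t ∈ S ∧ t.im ≤ X}.ncard : ℝ) ≤ ({t : ℂ | t ∈ S ∧ t.im ≤ T₀}.ncard : ℝ) := by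
      have h4 : {t : ℂ | t ∈ S ∧ t.im ≤ X} ⊆ {t : ℂ | t ∈ S ∧ t.im ≤ T₀} := fun t ht => ⟨ht.1, ht.2.trans h1⟩
      exact_mod_cast Set.ncard_le_ncard h4 (hfin T₀)
    have h3 : (0 : ℝ) ≤ ({t : ℂ | t ∈ S ∧ t.im ≤ T₀}.ncard : ℝ) := Nat.cast_nonneg _
    calc _ ≤ ({t : ℂ | t ∈ S ∧ t.im ≤ T₀}.ncard : ℝ) * 1 := by linarith
      _ ≤ ({t : ℂ | t ∈ S ∧ t.im ≤ T₀}.ncard : ℝ) * X ^ (s + ε) := mul_le_mul_of_nonneg_left hX1 h3
      _ ≤ _ := by
          apply mul_le_mul_of_nonneg_right _ (by positivity)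
          linarith [abs_nonneg C]

/-- the `t` near a zero with real part larger than `1 / 2 + τ` -/
def Near (τ : ℝ) : Set ℝ := {t : ℝ | ∃ s : ℂ, riemannZeta s = 0 ∧ 1 / 2 + τ < s.re ∧ s.re < 1 ∧ |s.im - t| ≤ 2 * Real.log t}

lemma meas {τ : ℝ} (hτ : 0 < τ) (hτ1 : τ ≤ 1) :
    ∃ T₀ : ℝ, ∀ T : ℝ, T₀ ≤ T → volume (Near τ ∩ Set.Icc T (2 * T)) ≤ ENNReal.ofReal (T / Real.log T ^ (2 + 1)) := by
  obtain ⟨δ, hδ, T0, h⟩ := Pool.Agent.TH822.AA.bz_z τ hτ hτ1
  have e2 : ∀ᶠ T : ℝ in atTop, Real.log T ^ 3 ≤ T ^ δ := by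
    have h1 := isLittleO_log_rpow_rpow_atTop ((3 : ℕ) : ℝ) hδ
    filter_upwards [h1.bound one_pos, eventually_ge_atTop (1 : ℝ)] with T h2 h3
    rw [one_mul, Real.rpow_natCast, Real.norm_of_nonneg (pow_nonneg (Real.log_nonneg h3) _),
      Real.norm_of_nonneg (by positivity)] at h2
    exact h2
  obtain ⟨T₁, hT₁⟩ := eventually_atTop.1 (e2.and ((eventually_ge_atTop T0).and (eventually_ge_atTop (4 : ℝ))))
  refine ⟨T₁, fun T hT => ?_⟩
  obtain ⟨g1, g2, g3⟩ := hT₁ T hT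
  have hT0 : 0 < T := by linarith
  have hl : 0 < Real.log T := Real.log_pos (by linarith)
  have hl4 : 2 * Real.log 2 ≤ Real.log T := by
    have : Real.log (2 * 2) ≤ Real.log T := Real.log_le_log (by norm_num) (by linarith)
    rw [Real.log_mul (by norm_num) (by norm_num)] at this
    linarith
  refine (measure_mono ?_).trans ((h T g2 0 le_rfl hT0.le).trans (ENNReal.ofReal_le_ofReal ?_))
  · rintro t ⟨⟨s, h1, h2, h3, h4⟩, ht⟩
    refine ⟨ht, s, h1, h2, h3, Or.inl (h4.trans ?_)⟩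
    have ht0 : 0 < t := lt_of_lt_of_le hT0 ht.1
    have h5 : Real.log t ≤ Real.log (2 * T) := Real.log_le_log ht0 ht.2
    rw [Real.log_mul (by norm_num) hT0.ne'] at h5
    linarith
  · rw [le_div_iff₀ (by positivity)]
    calc T ^ (1 - δ) * Real.log T ^ (2 + 1) ≤ T ^ (1 - δ) * T ^ δ := mul_le_mul_of_nonneg_left g1 (by positivity)
      _ = T := by
          rw [← Real.rpow_add hT0, sub_add_cancel, Real.rpow_one]

lemma line {τ : ℝ} (hτ : 0 < τ) (hτ1 : τ ≤ 1) {G : ℕ → ℝ} {a C : ℝ} (ha : 0 < a)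
    (h : ∀ v : ℕ, 1 ≤ v → a ≤ G (v + 1) - G v) (hG : ∀ v : ℕ, 1 ≤ v → G v ≤ C * v) :
    FinitelyMet {q : ℕ | ∃ ρ : ℂ, riemannZeta ρ = 0 ∧ |ρ.im - G q| ≤ Real.log (G q) ∧ 1 / 2 + τ < ρ.re} := by
  obtain ⟨q₀, hq₀⟩ := large ha h (max 1 (Real.exp a))
  refine ((finitely_real (Near τ) le_rfl (meas hτ hτ1) ha h hG).union (finitely_lt q₀)).subset fun q _ hq => ?_
  rcases lt_or_ge q q₀ with h2 | h2
  · exact Or.inr h2
  · left
    obtain ⟨ρ, h3, h4, h5⟩ := hq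
    have h6 := hq₀ q h2
    have h7 : 1 ≤ G q := (le_max_left _ _).trans h6
    have h8 : a ≤ Real.log (G q) := by
      rw [Real.le_log_iff_exp_le (by linarith)]
      exact (le_max_right _ _).trans h6
    have hre : ρ.re < 1 := by
      by_contra hcon
      push Not at hcon
      exact riemannZeta_ne_zero_of_one_le_re hcon h3
    rintro t ⟨ht1, ht2⟩
    refine ⟨ρ, h3, h5, hre, ?_⟩
    have h9 : Real.log (G q) ≤ Real.log t := Real.log_le_log (by linarith) ht1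
    rw [abs_le] at h4 ⊢
    constructor <;> linarith [h4.1, h4.2]

/-- **The zeros of zeta near the denominators of good approximations.** (1) Let `G` have steps `≥ a > 0` and `G v ≤ C v`. For
all `k ≥ 1`, almost all `α` in `ℝ^k`, all `τ > 0` and `b`, for all but finitely many `q ≥ 1` with `|q α_j - p_j| ≤ b q^(-1/k)`
for all `j` and some integers `p_j`, all zeros `β + iγ` with `|γ - G q| ≤ log (G q)` have `β ≤ 1 / 2 + τ`. For almost all real
`ξ` the same holds for all but finitely many denominators `q` of the convergents of `ξ`. Let now `G` have steps `≥ a > 0` and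
growth at most `v^d`, and `κ ≥ 0`. (2) For all `ε, δ > 0` there is `η > 0` such that for `1 / 2 ≤ σ ≤ 1`, `θ = d (2 (1 - σ) + ε) + κ < 1`, the set of
the `q` such that some zero `ρ = β + iγ` with `β ≥ σ`, `γ > 0`, `|γ - G q| ≤ q^κ` has at most `η log γ` zeros in the disc
`|s - (1 + iγ)| ≤ 1 - β + δ` is rarely met, with the exponent `θ`. (3) If `N(σ, T) = O(T^(r + ε))` for all `ε > 0` and
`θ = d r + κ < 1`, then the set of the `q` such that there is a zero with `β ≥ σ`, `γ > 0`, `|γ - G q| ≤ q^κ` is rarely met,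
with the exponent `θ`. (4) The functions `a v^d` with `a > 0`, `d ≥ 1` are examples of `G`. -/
theorem result :
    (∀ (G : ℕ → ℝ) (a C : ℝ), 0 < a → (∀ v : ℕ, 1 ≤ v → a ≤ G (v + 1) - G v) → (∀ v : ℕ, 1 ≤ v → G v ≤ C * v) →
      (∀ k : ℕ, 1 ≤ k → ∀ᵐ α : Fin k → ℝ, ∀ τ b : ℝ, 0 < τ → {q : ℕ | Approx b (1 / k) α q ∧
        ¬ ∀ ρ : ℂ, riemannZeta ρ = 0 → |ρ.im - G q| ≤ Real.log (G q) → ρ.re ≤ 1 / 2 + τ}.Finite) ∧
      ∀ᵐ ξ : ℝ, ∀ τ : ℝ, 0 < τ → ∀ᶠ n : ℕ in atTop, ∀ ρ : ℂ, riemannZeta ρ = 0 →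
        |ρ.im - G (ξ.convergent n).den| ≤ Real.log (G (ξ.convergent n).den) → ρ.re ≤ 1 / 2 + τ) ∧
    (∀ ε δ : ℝ, 0 < ε → 0 < δ → ∃ η : ℝ, 0 < η ∧ ∀ σ : ℝ, 1 / 2 ≤ σ → σ ≤ 1 →
      ∀ (G : ℕ → ℝ) (d κ : ℝ), Expanding G d → 0 ≤ κ → d * (2 * (1 - σ) + ε) + κ < 1 →
        RarelyMet (d * (2 * (1 - σ) + ε) + κ) {q : ℕ | ∃ ρ : ℂ, riemannZeta ρ = 0 ∧ σ ≤ ρ.re ∧ 0 < ρ.im ∧
          |ρ.im - G q| ≤ (q : ℝ) ^ κ ∧ (count (near δ ρ) : ℝ) ≤ η * Real.log ρ.im}) ∧
    (∀ σ r : ℝ, 1 / 2 ≤ σ → 0 ≤ r →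
      (∀ ε : ℝ, 0 < ε → ∃ C : ℝ, ∀ T : ℝ, 1 ≤ T → (count (zeros σ T) : ℝ) ≤ C * T ^ (r + ε)) →
      ∀ (G : ℕ → ℝ) (d κ : ℝ), Expanding G d → 0 ≤ κ → d * r + κ < 1 →
        RarelyMet (d * r + κ) {q : ℕ | ∃ ρ : ℂ, riemannZeta ρ = 0 ∧ σ ≤ ρ.re ∧ 0 < ρ.im ∧ |ρ.im - G q| ≤ (q : ℝ) ^ κ}) ∧
    ∀ a d : ℝ, 0 < a → 1 ≤ d → Expanding (fun v => a * (v : ℝ) ^ d) d := by
  refine ⟨fun G a C ha hgap hG => ?_, fun ε δ hε hδ => ?_, fun σ r hσ hr hN G d κ hG hκ h1 => ?_,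
    fun a d ha hd => expanding_pow ha hd⟩
  · obtain ⟨h1, h2⟩ := finitely_iff_all (ι := ℕ) (W := fun n : ℕ => {q : ℕ | ∃ ρ : ℂ, riemannZeta ρ = 0 ∧
      |ρ.im - G q| ≤ Real.log (G q) ∧ 1 / 2 + 1 / ((n : ℝ) + 1) < ρ.re}) (fun n => line (by positivity) (by
        rw [div_le_one (by positivity)]
        linarith [(Nat.cast_nonneg n : (0 : ℝ) ≤ n)]) ha hgap hG)
    refine ⟨fun k hk => ?_, ?_⟩
    · filter_upwards [h1 k hk] with α hα τ b hτ
      obtain ⟨n, hn⟩ := exists_nat_one_div_lt hτ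
      refine (hα n b).subset ?_
      rintro q ⟨hq1, hq2⟩
      push Not at hq2
      obtain ⟨ρ, k1, k2, k3⟩ := hq2
      exact ⟨hq1, ρ, k1, k2, by linarith⟩
    · filter_upwards [h2] with ξ hξ τ hτ
      obtain ⟨n, hn⟩ := exists_nat_one_div_lt hτ
      filter_upwards [hξ n] with m hm ρ k1 k2
      by_contra k3
      rw [not_le] at k3
      exact hm ⟨ρ, k1, k2, by linarith⟩
  · obtain ⟨η, hη, C, hC, T₀, hmain⟩ := IsolatedZeros.result ε δ hε hδ
    refine ⟨η, hη, fun σ hσ hσ1 G d κ hG hκ h1 => ?_⟩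
    obtain ⟨S, hS⟩ : ∃ S : Set ℂ, S = {ρ : ℂ | riemannZeta ρ = 0 ∧ σ ≤ ρ.re ∧ 0 < ρ.im ∧
      (count (near δ ρ) : ℝ) ≤ η * Real.log ρ.im} := ⟨_, rfl⟩
    have hs : 0 ≤ 2 * (1 - σ) + ε := by linarith
    have hcount := count_all (S := S) (s := 2 * (1 - σ) + ε) (C := C) (T₀ := T₀) (by
      intro s h2
      rw [hS] at h2
      exact ⟨h2.1, h2.2.2.1, by linarith [h2.2.1]⟩) hs (by
      intro X hX hX1
      have hsub : {t : ℂ | t ∈ S ∧ t.im ≤ X} ⊆ {ρ : ℂ | ρ ∈ zeros σ X ∧ (count (near δ ρ) : ℝ) ≤ η * Real.log X} := by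
        rintro ρ ⟨h2, h3⟩
        rw [hS] at h2
        obtain ⟨k1, k2, k3, k4⟩ := h2
        refine ⟨⟨k1, k2, k3, h3⟩, k4.trans ?_⟩
        exact mul_le_mul_of_nonneg_left (Real.log_le_log k3 h3) hη.le
      have hfin : {ρ : ℂ | ρ ∈ zeros σ X ∧ (count (near δ ρ) : ℝ) ≤ η * Real.log X}.Finite :=
        (zeros_finite σ X).subset fun _ h => h.1
      have h4 := (Set.ncard_le_ncard hsub hfin).trans (ncard_le hfin fun s h => ⟨h.1.1, h.1.2.2.1⟩)
      have h5 : (({t : ℂ | t ∈ S ∧ t.im ≤ X}.ncard : ℕ) : ℝ) ≤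
          (count {ρ : ℂ | ρ ∈ zeros σ X ∧ (count (near δ ρ) : ℝ) ≤ η * Real.log X} : ℝ) := by exact_mod_cast h4
      exact h5.trans (hmain X hX σ hσ hσ1))
    have h2 := rarely_windows S (fun t : ℂ => t.im) hG (s := 2 * (1 - σ) + ε) (κ := κ) hs hκ h1 hcount
    refine h2.subset fun q _ hq => ?_
    obtain ⟨ρ, k1, k2, k3, k4, k5⟩ := hq
    refine ⟨ρ, ?_, k4⟩
    rw [hS]
    exact ⟨k1, k2, k3, k5⟩
  · obtain ⟨S, hS⟩ : ∃ S : Set ℂ, S = {ρ : ℂ | riemannZeta ρ = 0 ∧ σ ≤ ρ.re ∧ 0 < ρ.im} := ⟨_, rfl⟩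
    have h2 := rarely_windows S (fun t : ℂ => t.im) hG (s := r) (κ := κ) hr hκ h1 (fun ε hε => by
      obtain ⟨C, hC⟩ := hN ε hε
      refine ⟨C, fun X hX => ?_⟩
      have hsub : {t : ℂ | t ∈ S ∧ t.im ≤ X} ⊆ zeros σ X := by
        rintro ρ ⟨h2, h3⟩
        rw [hS] at h2
        exact ⟨h2.1, h2.2.1, h2.2.2, h3⟩
      have h4 := (Set.ncard_le_ncard hsub (zeros_finite σ X)).trans
        (ncard_le (zeros_finite σ X) fun s h => ⟨h.1, h.2.2.1⟩)
      exact ⟨(zeros_finite σ X).subset hsub, le_trans (by exact_mod_cast h4) (hC X hX)⟩)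
    refine h2.subset fun q _ hq => ?_
    obtain ⟨ρ, k1, k2, k3, k4⟩ := hq
    refine ⟨ρ, ?_, k4⟩
    rw [hS]
    exact ⟨k1, k2, k3⟩

end Pool.Agent.Results.MP_4467b5_nt.ZerosAtGoodApproximations
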